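import Pool.Agent.Helper83.SU.St

/-! Project SU (MP_f663dd_lc), module S2: the least strict upper bound. -/

set_option autoImplicit false

namespace Pool.Agent.Helper42.SU

open Pool.Agent.Helper83.SU Pool.Agent.Helper83.CK Cardinal Set

universe u

theorem mS2 : StS1.{u} → StS2.{u} := by
  intro hS1 k l A hk hl hkl hkA hA
  obtain ⟨X, hXA, hXk⟩ := Cardinal.le_mk_iff_exists_subset.1 hkA
  have hcof : ∀ a ∈ A, ∃ x ∈ X, a ≤ x := by
    intro a ha
    by_contra hcon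
    push Not at hcon
    have h1 : X ⊆ A ∩ Iio a := fun x hx => ⟨hXA hx, hcon x hx⟩
    have h2 : #X ≤ #(A ∩ Iio a : Set l.ord.ToType) := Cardinal.mk_le_mk_of_subset h1
    rw [hXk] at h2
    exact absurd (hA a ha) (not_lt.2 h2)
  have hl0 : ℵ₀ ≤ l := hl.aleph0_le
  have hub : ∃ δ : l.ord.ToType, ∀ a ∈ A, a < δ := by
    by_contra hcon
    push Not at hcon
    have h1 : (univ : Set l.ord.ToType) ⊆ ⋃ x ∈ X, Iic x := by
      intro y _
      obtain ⟨a, ha, hya⟩ := hcon y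
      obtain ⟨x, hx, hax⟩ := hcof a ha
      exact mem_iUnion₂.2 ⟨x, hx, hya.trans hax⟩
    have h2 : #(⋃ x ∈ X, Iic x : Set l.ord.ToType) < l := by
      refine (Cardinal.card_biUnion_lt_iff_forall_of_isRegular hl (by rw [hXk]; exact hkl)).2 ?_
      intro x _
      have h3 : (Iic x : Set l.ord.ToType) ⊆ insert x (Iio x) := by
        intro y hy
        rcases lt_or_eq_of_le (show y ≤ x from hy) with h | h
        · exact Or.inr h
        · exact Or.inl h
      refine lt_of_le_of_lt (Cardinal.mk_le_mk_of_subset h3) ?_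
      refine lt_of_le_of_lt Cardinal.mk_insert_le ?_
      exact Cardinal.add_lt_of_lt hl0 (Cardinal.mk_Iio_ord_toType x)
        (lt_of_lt_of_le Cardinal.one_lt_aleph0 hl0)
    have h4 := (Cardinal.mk_le_mk_of_subset h1).trans_lt h2
    rw [Cardinal.mk_univ, Cardinal.mk_ord_toType] at h4
    exact lt_irrefl _ h4
  obtain ⟨δ, hδ, hmin⟩ := WellFounded.has_min (wellFounded_lt (α := l.ord.ToType))
    {δ : l.ord.ToType | ∀ a ∈ A, a < δ} hub
  have hcofA : ∀ ξ < δ, ∃ a ∈ A, ξ < a := by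
    intro ξ hξ
    have h1 : ¬ ∀ a ∈ A, a < ξ := fun h => hmin ξ h hξ
    push Not at h1
    obtain ⟨a, ha, hξa⟩ := h1
    obtain ⟨a', ha', h2⟩ := hS1 l.ord.ToType k A hk hkA hA {a} (by simpa using ha) (by
      rw [Cardinal.mk_singleton]
      exact lt_of_lt_of_le Cardinal.one_lt_aleph0 hk.aleph0_le)
    exact ⟨a', ha', hξa.trans_lt (h2 a rfl)⟩
  refine ⟨δ, hδ, hcofA, X, fun x hx => hδ x (hXA hx), hXk, ?_⟩
  intro ξ hξ
  obtain ⟨a, ha, hξa⟩ := hcofA ξ hξ
  obtain ⟨x, hx, hax⟩ := hcof a ha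
  exact ⟨x, hx, hξa.trans_le hax⟩

end Pool.Agent.Helper42.SU
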